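import Pool.Agent.Helper17_Syn.Supp

/-!
# Automorphism groups of ordered fields as linear orders
-/

set_option autoImplicit false

open scoped BigOperators Pointwise Topology

namespace Pool.Agent.Helper17_Syn

open Pool.Agent.Helper34_Synd Pool.Agent.Helper56_Tow

section fixed

variable {G X : Type*} [Group G] [TopologicalSpace X] [MulAction G X] [ContinuousConstSMul G X]

omit [TopologicalSpace X] [ContinuousConstSMul G X] in
theorem orbit_finite_of_fixed {u : G} {q : X} (hq : u • q = q) :
    (MulAction.orbit (Subgroup.zpowers u) q).Finite := by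
  have h3 : MulAction.orbit (Subgroup.zpowers u) q = {q} := by
    apply Set.Subset.antisymm
    · rintro _ ⟨⟨z, hz⟩, rfl⟩
      have h4 : Subgroup.zpowers u ≤ MulAction.stabilizer G q := by
        rw [Subgroup.zpowers_le]
        exact hq
      exact h4 hz
    · intro z hz
      rw [Set.mem_singleton_iff.1 hz]
      exact MulAction.mem_orbit_self _
  rw [h3]
  exact Set.finite_singleton q

/-- Disjoint supports inside disjoint closed sets, with fixed points. -/
theorem good_of_fixed
    (h : ∀ m : ℕ, ∃ (e : Fin m → G) (C : Fin m → Set X) (p : Fin m → X),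
      (∀ i, IsClosed (C i)) ∧ (∀ i j, i ≠ j → Disjoint (C i) (C j)) ∧
      (∀ i x, x ∉ C i → e i • x = x) ∧ ∀ i, e i • p i = p i ∧
        ¬ ∀ᶠ x in 𝓝 (p i), e i • x = x) : Good G := by
  refine good_of_supports (X := X) fun m => ?_
  obtain ⟨e, C, p, h1, h2, h3, h4⟩ := h m
  have hs : ∀ i, (supp (e i) : Set X) ⊆ C i := by
    intro i
    apply closure_minimal _ (h1 i)
    intro x hx
    by_contra hc
    exact hx (h3 i x hc)
  exact ⟨e, fun i j hij => (h2 i j hij).mono (hs i) (hs j),
    fun i => ⟨p i, orbit_finite_of_fixed (h4 i).1, (h4 i).2⟩⟩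

end fixed

section field

variable {K : Type*} [Field K] [LinearOrder K] [IsStrictOrderedRing K]

/-- A piecewise linear bump. -/
def bmp (x : K) : K := max x (min (2 * x) ((x + 1) / 2))

/-- Its inverse. -/
def bmpi (y : K) : K := min y (max (y / 2) (2 * y - 1))

theorem bmp_strictMono : StrictMono (bmp : K → K) := by
  intro x y hxy
  unfold bmp
  apply max_lt_max hxy
  apply min_lt_min
  · linarith
  · linarith

theorem bmp_bmpi (y : K) : bmp (bmpi y) = y := by
  unfold bmp bmpi
  rcases le_total y (y / 2) with h1 | h1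
  · -- y ≤ 0
    have h2 : y ≤ 0 := by linarith
    have e1 : max (y / 2) (2 * y - 1) = y / 2 := max_eq_left (by linarith)
    have e2 : min y (y / 2) = y := min_eq_left (by linarith)
    rw [e1, e2]
    apply max_eq_left
    exact (min_le_left _ _).trans (by linarith)
  · have h2 : 0 ≤ y := by linarith
    rcases le_total y 1 with h3 | h3
    · rcases le_total (y / 2) (2 * y - 1) with h4 | h4
      · have e1 : max (y / 2) (2 * y - 1) = 2 * y - 1 := max_eq_right h4
        have e2 : min y (2 * y - 1) = 2 * y - 1 := min_eq_right (by linarith)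
        rw [e1, e2]
        have e3 : min (2 * (2 * y - 1)) ((2 * y - 1 + 1) / 2) = (2 * y - 1 + 1) / 2 :=
          min_eq_right (by linarith)
        rw [e3]
        have e4 : (2 * y - 1 + 1) / 2 = y := by ring
        rw [e4]
        exact max_eq_right (by linarith)
      · have e1 : max (y / 2) (2 * y - 1) = y / 2 := max_eq_left h4
        have e2 : min y (y / 2) = y / 2 := min_eq_right h1
        rw [e1, e2]
        have e3 : min (2 * (y / 2)) ((y / 2 + 1) / 2) = 2 * (y / 2) :=
          min_eq_left (by linarith)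
        rw [e3]
        have e4 : 2 * (y / 2) = y := by ring
        rw [e4]
        exact max_eq_right h1
    · have e1 : y ≤ max (y / 2) (2 * y - 1) := le_max_of_le_right (by linarith)
      rw [min_eq_left e1]
      apply max_eq_left
      exact (min_le_right _ _).trans (by linarith)

/-- The bump as an automorphism of the order. -/
def bmpIso : K ≃o K :=
  StrictMono.orderIsoOfRightInverse bmp bmp_strictMono bmpi bmp_bmpi

theorem bmp_out {x : K} (h : x < 0 ∨ 1 < x) : bmp x = x := by
  unfold bmp
  apply max_eq_left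
  rcases h with h | h
  · exact (min_le_left _ _).trans (by linarith)
  · exact (min_le_right _ _).trans (by linarith)

theorem bmp_zero : bmp (0 : K) = 0 := by
  unfold bmp
  apply max_eq_left
  exact (min_le_left _ _).trans (by linarith)

theorem bmp_in {x : K} (h0 : 0 < x) (h1 : x < 1) : bmp x ≠ x := by
  unfold bmp
  have h2 : x < min (2 * x) ((x + 1) / 2) := lt_min (by linarith) (by linarith)
  rw [max_eq_right h2.le]
  exact h2.ne'

/-- The bump supported in `[c, c + 1]`. -/
def bmpAt (c : K) : K ≃o K := ((OrderIso.addRight (-c)).trans bmpIso).trans (OrderIso.addRight c)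

theorem bmpAt_apply (c x : K) : bmpAt c x = bmp (x + -c) + c := rfl

/-- **Automorphism groups of ordered fields as linear orders.** -/
theorem good_orderIso (K : Type*) [Field K] [LinearOrder K] [IsStrictOrderedRing K] :
    Good (K ≃o K) := by
  let τ : TopologicalSpace K := Preorder.topology K
  have : OrderTopology K := ⟨rfl⟩
  have hc : ContinuousConstSMul (K ≃o K) K := ⟨fun g => g.continuous⟩
  refine good_of_fixed (X := K) fun m => ?_
  have hlt : ∀ i j : Fin m, i < j → (2 * ((i : ℕ) : K)) + 1 < 2 * ((j : ℕ) : K) := by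
    intro i j hij
    have h1 : ((i : ℕ) : K) + 1 ≤ ((j : ℕ) : K) := by
      exact_mod_cast (show (i : ℕ) + 1 ≤ j from hij)
    linarith
  refine ⟨fun i => bmpAt (2 * ((i : ℕ) : K)),
    fun i => Set.Icc (2 * ((i : ℕ) : K)) (2 * ((i : ℕ) : K) + 1), fun i => 2 * ((i : ℕ) : K),
    fun i => isClosed_Icc, ?_, ?_, ?_⟩
  · intro i j hij
    rw [Set.disjoint_left]
    intro x hx hy
    rcases lt_or_gt_of_ne hij with h | h
    · have := hlt i j h
      linarith [hx.2, hy.1]
    · have := hlt j i h
      linarith [hx.1, hy.2]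
  · intro i x hx
    show bmpAt (2 * ((i : ℕ) : K)) x = x
    rw [bmpAt_apply, bmp_out]
    · ring
    · rw [Set.mem_Icc, not_and_or, not_le, not_le] at hx
      rcases hx with hx | hx
      · left; linarith
      · right; linarith
  · intro i
    constructor
    · show bmpAt (2 * ((i : ℕ) : K)) (2 * ((i : ℕ) : K)) = 2 * ((i : ℕ) : K)
      rw [bmpAt_apply, add_neg_cancel, bmp_zero, zero_add]
    · intro hcon
      have h1 : ∀ᶠ x in 𝓝[>] (2 * ((i : ℕ) : K)), bmpAt (2 * ((i : ℕ) : K)) x = x :=
        hcon.filter_mono nhdsWithin_le_nhds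
      have h2 : ∀ᶠ x in 𝓝[>] (2 * ((i : ℕ) : K)),
          x ∈ Set.Ioo (2 * ((i : ℕ) : K)) (2 * ((i : ℕ) : K) + 1) :=
        Ioo_mem_nhdsGT (by linarith)
      obtain ⟨x, hx1, hx2⟩ := (h1.and h2).exists
      rw [bmpAt_apply] at hx1
      apply bmp_in (x := x + -(2 * ((i : ℕ) : K))) (by linarith [hx2.1]) (by linarith [hx2.2])
      linarith

end field

end Pool.Agent.Helper17_Syn
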