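import Mathlib
import Pool.Agent.Helper17_Syn.Ord

/-!
# Groups of homeomorphisms that contain the compactly supported homeomorphisms of a chart
-/

set_option autoImplicit false

namespace Pool.Agent.Helper17_Syn

open Pool.Agent.Helper34_Synd Set Filter Metric
open scoped Topology

noncomputable section

/-! ## The radial contraction -/

/-- The radial factor of the contraction. -/
def ra (t : ℝ) : ℝ := max (1 / 2) (min t 1)

/-- The radial factor of the inverse. -/
def rb (s : ℝ) : ℝ := (Real.sqrt (max (1 / 4) (min s 1)))⁻¹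

theorem ra_pos (t : ℝ) : 0 < ra t := lt_max_of_lt_left (by norm_num)

theorem rb_arg_pos (s : ℝ) : 0 < max (1 / 4 : ℝ) (min s 1) := lt_max_of_lt_left (by norm_num)

theorem rb_pos (s : ℝ) : 0 < rb s := inv_pos.2 (Real.sqrt_pos.2 (rb_arg_pos s))

theorem continuous_ra : Continuous ra := by
  unfold ra
  fun_prop

theorem continuous_rb : Continuous rb := by
  unfold rb
  refine Continuous.inv₀ (by fun_prop) fun s => ?_
  exact (Real.sqrt_pos.2 (rb_arg_pos s)).ne'

theorem ra_of_one_le {t : ℝ} (h : 1 ≤ t) : ra t = 1 := by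
  unfold ra
  rw [min_eq_right h]
  norm_num

theorem rb_of_one_le {t : ℝ} (h : 1 ≤ t) : rb t = 1 := by
  unfold rb
  rw [min_eq_right h, max_eq_right (by norm_num), Real.sqrt_one, inv_one]

theorem rb_ra {t : ℝ} (ht : 0 ≤ t) : rb (ra t * t) * ra t = 1 := by
  rcases le_total t (1 / 2) with h1 | h1
  · have h2 : ra t = 1 / 2 := by
      unfold ra
      rw [min_eq_left (by linarith), max_eq_left h1]
    rw [h2]
    unfold rb
    rw [min_eq_left (by linarith), max_eq_left (by linarith)]
    have : Real.sqrt (1 / 4 : ℝ) = 1 / 2 := by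
      rw [show (1 / 4 : ℝ) = (1 / 2) ^ 2 by norm_num, Real.sqrt_sq (by norm_num)]
    rw [this]
    norm_num
  · rcases le_total t 1 with h2 | h2
    · have h3 : ra t = t := by
        unfold ra
        rw [min_eq_left h2, max_eq_right h1]
      rw [h3]
      unfold rb
      rw [min_eq_left (by nlinarith), max_eq_right (by nlinarith), Real.sqrt_mul_self ht]
      exact inv_mul_cancel₀ (by linarith)
    · rw [ra_of_one_le h2, one_mul, rb_of_one_le h2, mul_one]

theorem ra_rb {s : ℝ} (hs : 0 ≤ s) : ra (rb s * s) * rb s = 1 := by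
  rcases le_total s (1 / 4) with h1 | h1
  · have h2 : rb s = 2 := by
      unfold rb
      rw [min_eq_left (by linarith), max_eq_left h1]
      have : Real.sqrt (1 / 4 : ℝ) = 1 / 2 := by
        rw [show (1 / 4 : ℝ) = (1 / 2) ^ 2 by norm_num, Real.sqrt_sq (by norm_num)]
      rw [this]
      norm_num
    rw [h2]
    unfold ra
    rw [min_eq_left (by linarith), max_eq_left (by linarith)]
    norm_num
  · rcases le_total s 1 with h2 | h2
    · have h3 : rb s = (Real.sqrt s)⁻¹ := by
        unfold rb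
        rw [min_eq_left h2, max_eq_right h1]
      have h4 : 0 < Real.sqrt s := Real.sqrt_pos.2 (by linarith)
      have h5 : (Real.sqrt s)⁻¹ * s = Real.sqrt s := by
        rw [inv_mul_eq_iff_eq_mul₀ h4.ne', Real.mul_self_sqrt hs]
      have h6 : 1 / 2 ≤ Real.sqrt s := by
        rw [show (1 / 2 : ℝ) = Real.sqrt (1 / 4) by
          rw [show (1 / 4 : ℝ) = (1 / 2) ^ 2 by norm_num, Real.sqrt_sq (by norm_num)]]
        exact Real.sqrt_le_sqrt h1
      have h7 : Real.sqrt s ≤ 1 := by
        rw [← Real.sqrt_one]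
        exact Real.sqrt_le_sqrt h2
      rw [h3, h5]
      unfold ra
      rw [min_eq_left h7, max_eq_right h6]
      exact mul_inv_cancel₀ h4.ne'
    · rw [rb_of_one_le h2, one_mul, ra_of_one_le h2, mul_one]

variable {E : Type*} [NormedAddCommGroup E] [NormedSpace ℝ E]

theorem norm_scaled {c y : E} {r k : ℝ} (hk : 0 < k) :
    ‖(c + k • (y - c)) - c‖ / r = k * (‖y - c‖ / r) := by
  rw [add_sub_cancel_left, norm_smul, Real.norm_of_nonneg hk.le, mul_div_assoc]

/-- The contraction supported in the closed ball. -/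
def rad (c : E) (r : ℝ) (hr : 0 < r) : E ≃ₜ E where
  toFun y := c + ra (‖y - c‖ / r) • (y - c)
  invFun y := c + rb (‖y - c‖ / r) • (y - c)
  left_inv y := by
    change c + rb (‖(c + ra (‖y - c‖ / r) • (y - c)) - c‖ / r) •
      ((c + ra (‖y - c‖ / r) • (y - c)) - c) = y
    rw [norm_scaled (ra_pos _), add_sub_cancel_left, smul_smul, rb_ra (by positivity), one_smul]
    abel
  right_inv y := by
    change c + ra (‖(c + rb (‖y - c‖ / r) • (y - c)) - c‖ / r) •
      ((c + rb (‖y - c‖ / r) • (y - c)) - c) = y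
    rw [norm_scaled (rb_pos _), add_sub_cancel_left, smul_smul, ra_rb (by positivity), one_smul]
    abel
  continuous_toFun := by
    have := continuous_ra
    fun_prop
  continuous_invFun := by
    have := continuous_rb
    fun_prop

theorem rad_apply (c : E) (r : ℝ) (hr : 0 < r) (y : E) :
    rad c r hr y = c + ra (‖y - c‖ / r) • (y - c) := rfl

theorem rad_center (c : E) (r : ℝ) (hr : 0 < r) : rad c r hr c = c := by
  rw [rad_apply]
  simp

theorem rad_out {c : E} {r : ℝ} (hr : 0 < r) {y : E} (hy : y ∉ closedBall c r) :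
    rad c r hr y = y := by
  rw [mem_closedBall, dist_eq_norm, not_le] at hy
  rw [rad_apply, ra_of_one_le, one_smul]
  · abel
  · rw [one_le_div hr]
    exact hy.le

theorem rad_ne {c : E} {r : ℝ} (hr : 0 < r) {y : E} (hy : y ≠ c) (hy' : ‖y - c‖ < r) :
    rad c r hr y ≠ y := by
  intro h
  rw [rad_apply] at h
  have h1 : ra (‖y - c‖ / r) • (y - c) = (1 : ℝ) • (y - c) := by
    rw [one_smul, eq_sub_iff_add_eq, add_comm]
    exact h
  have h2 : y - c ≠ 0 := sub_ne_zero.2 hy
  have h3 := smul_left_injective ℝ h2 h1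
  unfold ra at h3
  have h4 : ‖y - c‖ / r < 1 := by
    rw [div_lt_one hr]
    exact hy'
  have h5 : max (1 / 2 : ℝ) (min (‖y - c‖ / r) 1) < 1 := by
    apply max_lt (by norm_num)
    exact lt_of_le_of_lt (min_le_left _ _) h4
  linarith

/-! ## Extension of a homeomorphism by the identity -/

variable {X : Type*} [TopologicalSpace X]

open Classical in
/-- The extension by the identity. -/
def extF (φ : OpenPartialHomeomorph X E) (ψ : E → E) (x : X) : X :=
  if x ∈ φ.source then φ.symm (ψ (φ x)) else x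

variable {φ : OpenPartialHomeomorph X E}

theorem extF_source {ψ : E → E} {x : X} (hx : x ∈ φ.source) :
    extF φ ψ x = φ.symm (ψ (φ x)) := by
  unfold extF
  rw [if_pos hx]

theorem extF_not {ψ : E → E} {x : X} (hx : x ∉ φ.source) : extF φ ψ x = x := by
  unfold extF
  rw [if_neg hx]

theorem extF_out {B : Set E} {ψ : E → E} (hψ : ∀ y, y ∉ B → ψ y = y) {x : X}
    (hx : x ∉ φ.symm '' B) : extF φ ψ x = x := by
  by_cases hs : x ∈ φ.source
  · rw [extF_source hs, hψ, φ.left_inv hs]
    intro hB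
    exact hx ⟨φ x, hB, φ.left_inv hs⟩
  · exact extF_not hs

theorem mapsTo_target {B : Set E} (hB : B ⊆ φ.target) (ψ : E ≃ₜ E)
    (hψ : ∀ y, y ∉ B → ψ y = y) {y : E} (hy : y ∈ φ.target) : ψ y ∈ φ.target := by
  by_cases h : ψ y ∈ B
  · exact hB h
  · have h1 : ψ (ψ y) = ψ y := hψ _ h
    rw [ψ.injective h1]
    exact hy

theorem extF_extF {B : Set E} (hB : B ⊆ φ.target) (ψ : E ≃ₜ E)
    (hψ : ∀ y, y ∉ B → ψ y = y) (x : X) : extF φ ψ.symm (extF φ ψ x) = x := by
  by_cases hs : x ∈ φ.source
  · have ht : ψ (φ x) ∈ φ.target := mapsTo_target hB ψ hψ (φ.map_source hs)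
    rw [extF_source hs, extF_source (φ.map_target ht), φ.right_inv ht, ψ.symm_apply_apply,
      φ.left_inv hs]
  · rw [extF_not hs, extF_not hs]

theorem continuous_extF [T2Space X] {B : Set E} (hBc : IsCompact B) (hB : B ⊆ φ.target)
    (ψ : E ≃ₜ E) (hψ : ∀ y, y ∉ B → ψ y = y) : Continuous (extF φ ψ) := by
  rw [continuous_iff_continuousAt]
  intro x
  by_cases hs : x ∈ φ.source
  · have h1 : extF φ ψ =ᶠ[𝓝 x] fun x => φ.symm (ψ (φ x)) := by
      filter_upwards [φ.open_source.mem_nhds hs] with z hz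
      exact extF_source hz
    refine ContinuousAt.congr ?_ h1.symm
    have h2 : ContinuousAt φ x := φ.continuousAt hs
    have h3 : ContinuousAt (fun x => ψ (φ x)) x := ψ.continuous.continuousAt.comp h2
    have h4 : ContinuousAt φ.symm (ψ (φ x)) :=
      φ.continuousAt_symm (mapsTo_target hB ψ hψ (φ.map_source hs))
    exact ContinuousAt.comp (f := fun x => ψ (φ x)) h4 h3
  · have hC : IsCompact (φ.symm '' B) := hBc.image_of_continuousOn (φ.continuousOn_symm.mono hB)
    have hx : x ∉ φ.symm '' B := by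
      rintro ⟨y, hy, rfl⟩
      exact hs (φ.map_target (hB hy))
    have h1 : extF φ ψ =ᶠ[𝓝 x] fun x => x := by
      filter_upwards [hC.isClosed.isOpen_compl.mem_nhds hx] with z hz
      exact extF_out hψ hz
    exact ContinuousAt.congr continuousAt_id h1.symm

theorem symm_out {B : Set E} (ψ : E ≃ₜ E) (hψ : ∀ y, y ∉ B → ψ y = y) :
    ∀ y, y ∉ B → ψ.symm y = y := by
  intro y hy
  rw [ψ.symm_apply_eq, hψ y hy]

/-- The extended homeomorphism. -/
def extH [T2Space X] (φ : OpenPartialHomeomorph X E) {B : Set E} (hBc : IsCompact B)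
    (hB : B ⊆ φ.target) (ψ : E ≃ₜ E) (hψ : ∀ y, y ∉ B → ψ y = y) : X ≃ₜ X where
  toFun := extF φ ψ
  invFun := extF φ ψ.symm
  left_inv := extF_extF hB ψ hψ
  right_inv := by
    intro x
    have := extF_extF hB ψ.symm (symm_out ψ hψ) x
    rwa [ψ.symm_symm] at this
  continuous_toFun := continuous_extF hBc hB ψ hψ
  continuous_invFun := continuous_extF hBc hB ψ.symm (symm_out ψ hψ)

/-! ## The theorem -/

/-- **Homeomorphism groups.**  A group which acts by homeomorphisms on a Hausdorff space and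
realises all homeomorphisms whose support is a compact subset of the domain of one chart with
values in a finite-dimensional space of positive dimension. -/
theorem good_of_chart [T2Space X] [Nontrivial E] [FiniteDimensional ℝ E]
    (φ : OpenPartialHomeomorph X E) (hφ : φ.source.Nonempty) {G : Type*} [Group G]
    [MulAction G X] [ContinuousConstSMul G X]
    (hG : ∀ f : X ≃ₜ X, (∃ C : Set X, IsCompact C ∧ C ⊆ φ.source ∧ ∀ x, x ∉ C → f x = x) →
      ∃ g : G, ∀ x : X, g • x = f x) : Good G := by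
  have hP : ProperSpace E := FiniteDimensional.proper_real E
  obtain ⟨x₀, hx₀⟩ := hφ
  set c₀ : E := φ x₀ with hc₀
  have hc₀t : c₀ ∈ φ.target := φ.map_source hx₀
  obtain ⟨R, hR, hball⟩ := Metric.isOpen_iff.1 φ.open_target c₀ hc₀t
  obtain ⟨v, hv⟩ := exists_norm_eq E (c := 1) zero_le_one
  refine good_of_fixed (X := X) fun m => ?_
  set δ : ℝ := R / (m + 1) with hδ
  have hδ0 : 0 < δ := by positivity
  have hδR : δ * (m + 1) = R := by
    rw [hδ]
    field_simp
  set r : ℝ := δ / 3 with hr
  have hr0 : 0 < r := by positivity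
  let c : Fin m → E := fun i => c₀ + (((i : ℕ) : ℝ) * δ) • v
  let B : Fin m → Set E := fun i => closedBall (c i) r
  have hBt : ∀ i, B i ⊆ φ.target := by
    intro i y hy
    apply hball
    rw [mem_ball, dist_eq_norm]
    have h1 : ‖y - c i‖ ≤ r := by
      rw [← dist_eq_norm]
      exact hy
    have h2 : y - c₀ = (y - c i) + (((i : ℕ) : ℝ) * δ) • v := by
      change y - c₀ = (y - (c₀ + (((i : ℕ) : ℝ) * δ) • v)) + (((i : ℕ) : ℝ) * δ) • v
      abel
    have h3 : ‖(((i : ℕ) : ℝ) * δ) • v‖ = ((i : ℕ) : ℝ) * δ := by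
      rw [norm_smul, hv, mul_one, Real.norm_of_nonneg (by positivity)]
    have h4 : ((i : ℕ) : ℝ) ≤ m := by exact_mod_cast i.2.le
    calc ‖y - c₀‖ ≤ ‖y - c i‖ + ‖(((i : ℕ) : ℝ) * δ) • v‖ := by
          rw [h2]
          exact norm_add_le _ _
      _ ≤ r + m * δ := by
          rw [h3]
          have := mul_le_mul_of_nonneg_right h4 hδ0.le
          linarith
      _ < R := by
          rw [← hδR, hr]
          nlinarith
  have hdisj : ∀ i j, i ≠ j → Disjoint (B i) (B j) := by
    intro i j hij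
    rw [Set.disjoint_left]
    intro y hi hj
    have h1 : ‖y - c i‖ ≤ r := by
      rw [← dist_eq_norm]
      exact hi
    have h2 : ‖y - c j‖ ≤ r := by
      rw [← dist_eq_norm]
      exact hj
    have h3 : (((i : ℕ) : ℝ) - ((j : ℕ) : ℝ)) • (δ • v) = (y - c j) - (y - c i) := by
      change _ = (y - (c₀ + (((j : ℕ) : ℝ) * δ) • v)) - (y - (c₀ + (((i : ℕ) : ℝ) * δ) • v))
      rw [sub_smul, smul_smul, smul_smul]
      abel
    have h4 : ‖(((i : ℕ) : ℝ) - ((j : ℕ) : ℝ)) • (δ • v)‖ ≤ 2 * r := by
      rw [h3]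
      exact (norm_sub_le _ _).trans (by linarith)
    rw [norm_smul, norm_smul, hv, mul_one, Real.norm_of_nonneg hδ0.le, Real.norm_eq_abs] at h4
    have h5 : (1 : ℝ) ≤ |((i : ℕ) : ℝ) - ((j : ℕ) : ℝ)| := by
      have h6 : (1 : ℤ) ≤ |((i : ℕ) : ℤ) - ((j : ℕ) : ℤ)| := by
        apply Int.one_le_abs
        intro h
        apply hij
        apply Fin.ext
        omega
      exact_mod_cast h6
    have h6 := mul_le_mul_of_nonneg_right h5 hδ0.le
    rw [hr] at h4
    linarith
  have hBc : ∀ i, IsCompact (B i) := fun i => isCompact_closedBall _ _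
  let ψ : Fin m → E ≃ₜ E := fun i => rad (c i) r hr0
  have hψ : ∀ i y, y ∉ B i → ψ i y = y := fun i y hy => rad_out hr0 hy
  let f : Fin m → X ≃ₜ X := fun i => extH φ (hBc i) (hBt i) (ψ i) (hψ i)
  have hC : ∀ i, IsCompact (φ.symm '' B i) := fun i =>
    (hBc i).image_of_continuousOn (φ.continuousOn_symm.mono (hBt i))
  have hCs : ∀ i, φ.symm '' B i ⊆ φ.source := by
    rintro i _ ⟨y, hy, rfl⟩
    exact φ.map_target (hBt i hy)
  have hf : ∀ i x, x ∉ φ.symm '' B i → f i x = x := fun i x hx => extF_out (hψ i) hx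
  choose g hg using fun i => hG (f i) ⟨_, hC i, hCs i, hf i⟩
  have hct : ∀ i, c i ∈ φ.target := fun i => hBt i (mem_closedBall_self hr0.le)
  refine ⟨g, fun i => φ.symm '' B i, fun i => φ.symm (c i),
    fun i => (hC i).isClosed, ?_, fun i x hx => by rw [hg, hf i x hx], ?_⟩
  · intro i j hij
    rw [Set.disjoint_left]
    rintro _ ⟨y, hy, rfl⟩ ⟨z, hz, hyz⟩
    have : z = y := φ.symm.injOn (by
      rw [φ.symm_source]
      exact hBt j hz) (by
      rw [φ.symm_source]
      exact hBt i hy) hyz
    subst this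
    exact Set.disjoint_left.1 (hdisj i j hij) hy hz
  · intro i
    have hval : ∀ y, y ∈ φ.target → f i (φ.symm y) = φ.symm (ψ i y) := by
      intro y hy
      change extF φ (ψ i) (φ.symm y) = _
      rw [extF_source (φ.map_target hy), φ.right_inv hy]
    simp only [hg]
    constructor
    · rw [hval _ (hct i)]
      congr 1
      exact rad_center _ _ _
    · intro hcon
      have h1 : ∀ᶠ y in 𝓝 (c i), f i (φ.symm y) = φ.symm y :=
        (φ.continuousAt_symm (hct i)).eventually hcon
      have h2 : ∀ᶠ y in 𝓝 (c i), y ∈ φ.target := φ.open_target.mem_nhds (hct i)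
      have h3 : ∀ᶠ y in 𝓝 (c i), y ∈ ball (c i) r := ball_mem_nhds _ hr0
      have h4 : ∀ᶠ y in 𝓝[≠] (c i), False := by
        have h5 : ∀ᶠ y in 𝓝[≠] (c i), y ∈ ({c i}ᶜ : Set E) := self_mem_nhdsWithin
        filter_upwards [h1.filter_mono nhdsWithin_le_nhds, h2.filter_mono nhdsWithin_le_nhds,
          h3.filter_mono nhdsWithin_le_nhds, h5] with y e1 e2 e3 e4
        rw [hval y e2] at e1
        have e5 : ψ i y = y := φ.symm.injOn (by
          rw [φ.symm_source]
          exact mapsTo_target (hBt i) (ψ i) (hψ i) e2) (by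
          rw [φ.symm_source]
          exact e2) e1
        have e6 : ‖y - c i‖ < r := by
          rw [← dist_eq_norm]
          exact e3
        exact rad_ne hr0 e4 e6 e5
      exact (h4.exists).elim fun _ h => h

end

end Pool.Agent.Helper17_Syn
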