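import Pool.Agent.Helper17_Syn.Master

/-!
# Groups with local elements

If a group acts on a Hausdorff space and some nontrivial germ at a point with infinite orbit is
the germ of elements with arbitrarily small support then the group has a left-invariant syndetic
submeasure.
-/

set_option autoImplicit false

open scoped BigOperators Pointwise Topology

namespace Pool.Agent.Helper17_Syn

open Pool.Agent.Helper34_Synd Pool.Agent.Helper56_Tow

section orbit

variable {G : Type*} [Group G]

/-- Infinitely many cosets. -/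
theorem exists_cosets (H : Subgroup G) (hH : ¬ H.FiniteIndex) :
    ∃ c : ℕ → G, ∀ i j, i ≠ j → (c i)⁻¹ * c j ∉ H := by
  have h1 : Infinite (G ⧸ H) := by
    rw [← not_finite_iff_infinite]
    intro h
    exact hH Subgroup.finiteIndex_of_finite_quotient
  let f : ℕ ↪ G ⧸ H := Infinite.natEmbedding _
  refine ⟨fun i => (f i).out, fun i j hij h => hij ?_⟩
  apply f.injective
  rw [← QuotientGroup.out_eq' (f i), ← QuotientGroup.out_eq' (f j)]
  exact QuotientGroup.eq.2 h

/-- **One orbit of subgroups.** -/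
theorem good_of_orbit (A H : Subgroup G) (hH : ¬ H.FiniteIndex) (e : G) (heA : e ∉ A)
    (hN : ∀ a ∈ A, e * a * e⁻¹ ∈ A ∧ e⁻¹ * a * e ∈ A)
    (hloc : ∀ L : Finset G, (∀ h ∈ L, h ∉ H) → ∃ a ∈ A, ∀ h ∈ L, h⁻¹ * (e * a) * h ∈ A) :
    Good G := by
  classical
  obtain ⟨c, hc⟩ := exists_cosets H hH
  -- the base elements
  have hbase : ∀ k i : ℕ, ∃ a ∈ A, ∀ i' < 2 ^ k, i' ≠ i →
      (c i')⁻¹ * (c i * (e * a) * (c i)⁻¹) * c i' ∈ A := by
    intro k i
    obtain ⟨a, ha, h⟩ := hloc (((Finset.range (2 ^ k)).erase i).image fun i' => (c i)⁻¹ * c i')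
      (by
        intro h hh
        obtain ⟨i', hi', rfl⟩ := Finset.mem_image.1 hh
        exact hc i i' (Finset.ne_of_mem_erase hi').symm)
    refine ⟨a, ha, fun i' hi' hne => ?_⟩
    have := h _ (Finset.mem_image_of_mem _ (Finset.mem_erase.2 ⟨hne, Finset.mem_range.2 hi'⟩))
    have e1 : (c i')⁻¹ * (c i * (e * a) * (c i)⁻¹) * c i' =
        ((c i)⁻¹ * c i')⁻¹ * (e * a) * ((c i)⁻¹ * c i') := by group
    rw [e1]
    exact this
  choose a ha hab using hbase
  let S : ℕ → Subgroup G := fun k => ⨅ i ∈ Finset.range (2 ^ k), A.map (MulAut.conj (c i)).toMonoidHom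
  have hS : ∀ k x, x ∈ S k ↔ ∀ i < 2 ^ k, (c i)⁻¹ * x * c i ∈ A := by
    intro k x
    simp only [S, Subgroup.mem_iInf, Finset.mem_range]
    apply forall_congr'
    intro i
    apply forall_congr'
    intro _
    constructor
    · rintro ⟨y, hy, rfl⟩
      have : (c i)⁻¹ * ((MulAut.conj (c i)).toMonoidHom y) * c i = y := by
        simp [MulAut.conj_apply, mul_assoc]
      rw [this]
      exact hy
    · intro h
      refine ⟨_, h, ?_⟩
      simp [MulAut.conj_apply, mul_assoc]
  let ε : ℕ → ℕ → G := fun k i => c i * (e * a k i) * (c i)⁻¹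
  let E : ℕ → Finset G := fun k => (Finset.range (2 ^ k)).image (ε k)
  have hεi : ∀ k i, (c i)⁻¹ * ε k i * c i = e * a k i := by
    intro k i
    show (c i)⁻¹ * (c i * (e * a k i) * (c i)⁻¹) * c i = e * a k i
    group
  -- normalisation by elements of `e A`
  have hNe : ∀ u ∈ A, ∀ x ∈ A, (e * u) * x * (e * u)⁻¹ ∈ A ∧ (e * u)⁻¹ * x * (e * u) ∈ A := by
    intro u hu x hx
    constructor
    · have h1 := (hN (u * x * u⁻¹) (A.mul_mem (A.mul_mem hu hx) (A.inv_mem hu))).1
      have h2 : (e * u) * x * (e * u)⁻¹ = e * (u * x * u⁻¹) * e⁻¹ := by group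
      rw [h2]
      exact h1
    · have h1 := (hN x hx).2
      have h2 : (e * u)⁻¹ * x * (e * u) = u⁻¹ * (e⁻¹ * x * e) * u := by group
      rw [h2]
      exact A.mul_mem (A.mul_mem (A.inv_mem hu) h1) hu
  refine good_of_robust S E ?_ ?_ ?_
  · intro k x hx
    obtain ⟨i, hi, rfl⟩ := Finset.mem_image.1 hx
    rw [hS]
    intro h
    have h1 := h i (Finset.mem_range.1 hi)
    rw [hεi] at h1
    apply heA
    have h2 := A.mul_mem h1 (A.inv_mem (ha k i))
    rwa [mul_inv_cancel_right] at h2
  · intro k x hx y hy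
    obtain ⟨i, hi, rfl⟩ := Finset.mem_image.1 hx
    rw [hS] at hy
    rw [hS, hS]
    have key : ∀ i' < 2 ^ k, (c i')⁻¹ * (ε k i * y * (ε k i)⁻¹) * c i' ∈ A ∧
        (c i')⁻¹ * ((ε k i)⁻¹ * y * ε k i) * c i' ∈ A := by
      intro i' hi'
      have hy' := hy i' hi'
      set z := (c i')⁻¹ * y * c i' with hz
      set w := (c i')⁻¹ * ε k i * c i' with hw
      have h1 : (c i')⁻¹ * (ε k i * y * (ε k i)⁻¹) * c i' = w * z * w⁻¹ := by
        rw [hz, hw]; group
      have h2 : (c i')⁻¹ * ((ε k i)⁻¹ * y * ε k i) * c i' = w⁻¹ * z * w := by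
        rw [hz, hw]; group
      rw [h1, h2]
      by_cases hii : i' = i
      · subst hii
        rw [hw, hεi]
        exact hNe _ (ha k i') _ hy'
      · have hwA : w ∈ A := hab k i i' hi' hii
        exact ⟨A.mul_mem (A.mul_mem hwA hy') (A.inv_mem hwA),
          A.mul_mem (A.mul_mem (A.inv_mem hwA) hy') hwA⟩
    exact ⟨fun i' hi' => (key i' hi').1, fun i' hi' => (key i' hi').2⟩
  · intro k g
    -- a good index
    have hgood : ∃ i < 2 ^ k, ∀ j < k, ∀ i' < 2 ^ j, (g k * c i)⁻¹ * (g j * c i') ∉ H := by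
      by_contra hcon
      push Not at hcon
      choose! J hJ I hI hmem using hcon
      have h1 : ∀ i ∈ Finset.range (2 ^ k), (⟨J i, I i⟩ : Σ _ : ℕ, ℕ) ∈
          (Finset.range k).sigma fun j => Finset.range (2 ^ j) := by
        intro i hi
        rw [Finset.mem_sigma, Finset.mem_range, Finset.mem_range]
        exact ⟨hJ i (Finset.mem_range.1 hi), hI i (Finset.mem_range.1 hi)⟩
      have h2 : ((Finset.range k).sigma fun j => Finset.range (2 ^ j)).card <
          (Finset.range (2 ^ k)).card := by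
        rw [Finset.card_sigma]
        simp only [Finset.card_range]
        have := Nat.geomSum_eq (m := 2) le_rfl k
        rw [this]
        have h3 : 0 < 2 ^ k := by positivity
        omega
      obtain ⟨x, hx, y, hy, hxy, heq⟩ := Finset.exists_ne_map_eq_of_card_lt_of_maps_to h2 h1
      have h3 := hmem x (Finset.mem_range.1 hx)
      have h4 := hmem y (Finset.mem_range.1 hy)
      have h5 : J x = J y := congrArg Sigma.fst heq
      have h6 : I x = I y := by
        have := heq
        simp only [Sigma.mk.injEq] at this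
        exact eq_of_heq this.2
      rw [h5, h6] at h3
      have h7 := H.mul_mem h3 (H.inv_mem h4)
      have h8 : (g k * c x)⁻¹ * (g (J y) * c (I y)) * ((g k * c y)⁻¹ * (g (J y) * c (I y)))⁻¹ =
          (c x)⁻¹ * c y := by group
      rw [h8] at h7
      exact hc x y hxy h7
    obtain ⟨i, hi, hbad⟩ := hgood
    obtain ⟨a0, ha0, h0⟩ := hloc
      ((((Finset.range k).sigma fun j => Finset.range (2 ^ j)).image fun p =>
        (g k * c i)⁻¹ * (g p.1 * c p.2)) ∪
        (((Finset.range (2 ^ k)).erase i).image fun i' => (c i)⁻¹ * c i')) (by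
      intro h hh
      rcases Finset.mem_union.1 hh with hh | hh
      · obtain ⟨p, hp, rfl⟩ := Finset.mem_image.1 hh
        rw [Finset.mem_sigma, Finset.mem_range, Finset.mem_range] at hp
        exact hbad p.1 hp.1 p.2 hp.2
      · obtain ⟨i', hi', rfl⟩ := Finset.mem_image.1 hh
        exact hc i i' (Finset.ne_of_mem_erase hi').symm)
    set b' : G := c i * (e * a0) * (c i)⁻¹ with hb'
    refine ⟨b' * (ε k i)⁻¹, ?_, ε k i, Finset.mem_image_of_mem _ (Finset.mem_range.2 hi), ?_⟩
    · rw [hS]
      intro i' hi'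
      have e1 : (c i')⁻¹ * (b' * (ε k i)⁻¹) * c i' =
          ((c i')⁻¹ * b' * c i') * ((c i')⁻¹ * ε k i * c i')⁻¹ := by group
      rw [e1]
      by_cases hii : i' = i
      · subst hii
        rw [hεi]
        have e2 : (c i')⁻¹ * b' * c i' = e * a0 := by
          rw [hb']; group
        have e3 : e * a0 * (e * a k i')⁻¹ = e * (a0 * (a k i')⁻¹) * e⁻¹ := by group
        rw [e2, e3]
        exact (hN _ (A.mul_mem ha0 (A.inv_mem (ha k i')))).1
      · have h1 : (c i')⁻¹ * b' * c i' ∈ A := by
          have := h0 ((c i)⁻¹ * c i') (Finset.mem_union_right _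
            (Finset.mem_image_of_mem _ (Finset.mem_erase.2 ⟨hii, Finset.mem_range.2 hi'⟩)))
          have e2 : (c i')⁻¹ * b' * c i' =
              ((c i)⁻¹ * c i')⁻¹ * (e * a0) * ((c i)⁻¹ * c i') := by
            rw [hb']; group
          rw [e2]
          exact this
        exact A.mul_mem h1 (A.inv_mem (hab k i i' hi' hii))
    · intro j hj
      rw [hS]
      intro i' hi'
      rw [inv_mul_cancel_right]
      have := h0 ((g k * c i)⁻¹ * (g j * c i')) (Finset.mem_union_left _
        (Finset.mem_image.2 ⟨⟨j, i'⟩, Finset.mem_sigma.2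
          ⟨Finset.mem_range.2 hj, Finset.mem_range.2 hi'⟩, rfl⟩))
      have e2 : (c i')⁻¹ * ((g j)⁻¹ * (g k * b' * (g k)⁻¹) * g j) * c i' =
          ((g k * c i)⁻¹ * (g j * c i'))⁻¹ * (e * a0) * ((g k * c i)⁻¹ * (g j * c i')) := by
        rw [hb']; group
      rw [e2]
      exact this

end orbit

section germ

variable {G X : Type*} [Group G] [TopologicalSpace X] [T2Space X] [MulAction G X]
  [ContinuousConstSMul G X]

/-- The elements that are trivial near `p`. -/
def trv (G : Type*) {X : Type*} [Group G] [TopologicalSpace X] [MulAction G X] (p : X) :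
    Subgroup G where
  carrier := {g | ∀ᶠ x in 𝓝 p, g • x = x}
  one_mem' := Filter.Eventually.of_forall fun x => one_smul G x
  mul_mem' := by
    intro a b ha hb
    filter_upwards [ha, hb] with x h1 h2
    rw [mul_smul, h2, h1]
  inv_mem' := by
    intro a ha
    filter_upwards [ha] with x h1
    rw [inv_smul_eq_iff, h1]

omit [T2Space X] [ContinuousConstSMul G X] in
theorem mem_trv {p : X} {g : G} : g ∈ trv G p ↔ ∀ᶠ x in 𝓝 p, g • x = x := Iff.rfl

omit [T2Space X] in
/-- Transport of local triviality. -/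
theorem eventually_smul {p : X} {P : X → Prop} (g : G) (h : ∀ᶠ x in 𝓝 (g • p), P x) :
    ∀ᶠ x in 𝓝 p, P (g • x) :=
  (continuous_const_smul g).continuousAt.eventually h

/-- **Groups with local elements.** `G` acts on a Hausdorff space, `p` is a point with infinite
orbit, `e` is an element fixing `p`, not trivial near `p`, and every neighbourhood of `p` contains
the support of an element that agrees with `e` near `p`. -/
theorem good_of_germ (p : X) (hp : (MulAction.orbit G p).Infinite) (e : G) (hep : e • p = p)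
    (hne : ¬ ∀ᶠ x in 𝓝 p, e • x = x)
    (hsm : ∀ U ∈ 𝓝 p, ∃ u : G, (∀ᶠ x in 𝓝 p, u • x = e • x) ∧ ∀ x, x ∉ U → u • x = x) :
    Good G := by
  classical
  have hep' : e⁻¹ • p = p := by
    rw [inv_smul_eq_iff, hep]
  refine good_of_orbit (trv G p) (MulAction.stabilizer G p) ?_ e hne ?_ ?_
  · intro hfin
    apply hp
    have h1 : Finite (G ⧸ MulAction.stabilizer G p) := Subgroup.finite_quotient_of_finiteIndex
    have h2 : Finite (MulAction.orbit G p) :=
      Finite.of_equiv _ (MulAction.orbitEquivQuotientStabilizer G p).symm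
    exact Set.toFinite _
  · intro a ha
    constructor
    · have h1 : ∀ᶠ x in 𝓝 (e⁻¹ • p), a • x = x := by
        rw [hep']; exact ha
      filter_upwards [eventually_smul e⁻¹ h1] with x hx
      rw [mul_smul, mul_smul, hx, smul_inv_smul]
    · have h1 : ∀ᶠ x in 𝓝 (e • p), a • x = x := by
        rw [hep]; exact ha
      filter_upwards [eventually_smul e h1] with x hx
      rw [mul_smul, mul_smul, hx, inv_smul_smul]
  · intro L hL
    have hsep : ∀ h ∈ L, ∃ U V : Set X, IsOpen U ∧ IsOpen V ∧ p ∈ U ∧ h • p ∈ V ∧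
        Disjoint U V := by
      intro h hh
      have : p ≠ h • p := fun h1 => hL h hh h1.symm
      obtain ⟨U, V, h1, h2, h3, h4, h5⟩ := t2_separation this
      exact ⟨U, V, h1, h2, h3, h4, h5⟩
    choose! U V hU hV hpU hpV hdis using hsep
    obtain ⟨u, hu1, hu2⟩ := hsm (⋂ h ∈ L, U h)
      ((Filter.biInter_finset_mem L).2 fun h hh => (hU h hh).mem_nhds (hpU h hh))
    refine ⟨e⁻¹ * u, ?_, ?_⟩
    · filter_upwards [hu1] with x hx
      rw [mul_smul, hx, inv_smul_smul]
    · intro h hh
      rw [mul_inv_cancel_left]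
      have h1 : ∀ᶠ x in 𝓝 (h • p), u • x = x := by
        filter_upwards [(hV h hh).mem_nhds (hpV h hh)] with x hx
        apply hu2
        intro hxU
        have h2 : x ∈ U h := by
          have := Set.mem_iInter₂.1 hxU h hh
          exact this
        exact Set.disjoint_left.1 (hdis h hh) h2 hx
      filter_upwards [eventually_smul h h1] with x hx
      rw [mul_smul, mul_smul, hx, inv_smul_smul]

end germ

end Pool.Agent.Helper17_Syn
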