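import Pool.Agent.Helper56_Tow.Chain

/-!
# Robust sequences of subgroups

Subgroups `A k` and finite sets `E k` of elements normalising `A k` such that for all
`g 0, ..., g k` some element of `g k A k (E k) (g k)⁻¹` lies in all the `g j A j (g j)⁻¹`, `j < k`,
give a left-invariant syndetic submeasure.
-/

set_option autoImplicit false

open scoped BigOperators Pointwise Topology

namespace Pool.Agent.Helper17_Syn

open Pool.Agent.Helper34_Synd Pool.Agent.Helper56_Tow

section master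

variable {G : Type*} [Group G]

/-- A maximal `A`-invariant set `I` that is disjoint from `e I` for all `e` in a finite set of
elements normalising `A`. -/
theorem exists_indep' (A : Subgroup G) (E : Finset G) (hE : ∀ e ∈ E, e ∉ A)
    (hN : ∀ e ∈ E, ∀ a ∈ A, e * a * e⁻¹ ∈ A ∧ e⁻¹ * a * e ∈ A) :
    ∃ I : Set G, (∀ a ∈ A, ∀ q, a * q ∈ I ↔ q ∈ I) ∧ (∀ e ∈ E, ∀ q, ¬ (q ∈ I ∧ e * q ∈ I)) ∧
      ∀ q, q ∈ I ∨ ∃ e ∈ E, e * q ∈ I ∨ e⁻¹ * q ∈ I := by
  let S : Set (Set G) := {I | (∀ a ∈ A, ∀ q, a * q ∈ I ↔ q ∈ I) ∧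
    ∀ e ∈ E, ∀ q, ¬ (q ∈ I ∧ e * q ∈ I)}
  obtain ⟨I, hI⟩ := zorn_subset S (by
    intro c hc hch
    refine ⟨⋃₀ c, ⟨?_, ?_⟩, fun s hs => Set.subset_sUnion_of_mem hs⟩
    · intro a ha q
      constructor
      · rintro ⟨s, hs, h⟩
        exact ⟨s, hs, ((hc hs).1 a ha q).1 h⟩
      · rintro ⟨s, hs, h⟩
        exact ⟨s, hs, ((hc hs).1 a ha q).2 h⟩
    · rintro e he q ⟨⟨s, hs, h⟩, ⟨s', hs', h'⟩⟩
      rcases hch.total hs hs' with hss | hss
      · exact (hc hs').2 e he q ⟨hss h, h'⟩
      · exact (hc hs).2 e he q ⟨h, hss h'⟩)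
  have hI1 := hI.prop.1
  have hI2 := hI.prop.2
  refine ⟨I, hI1, hI2, fun q => ?_⟩
  by_contra hcon
  push Not at hcon
  obtain ⟨hq, hnq⟩ := hcon
  let I' : Set G := I ∪ {z | ∃ a ∈ A, z = a * q}
  have hI' : I' ∈ S := by
    refine ⟨?_, ?_⟩
    · intro a ha z
      constructor
      · rintro (h | ⟨b, hb, h⟩)
        · exact Or.inl ((hI1 a ha z).1 h)
        · refine Or.inr ⟨a⁻¹ * b, A.mul_mem (A.inv_mem ha) hb, ?_⟩
          rw [mul_assoc, ← h, inv_mul_cancel_left]
      · rintro (h | ⟨b, hb, h⟩)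
        · exact Or.inl ((hI1 a ha z).2 h)
        · exact Or.inr ⟨a * b, A.mul_mem ha hb, by rw [h, mul_assoc]⟩
    · rintro e he z ⟨h1 | ⟨a, ha, h1⟩, h2 | ⟨b, hb, h2⟩⟩
      · exact hI2 e he z ⟨h1, h2⟩
      · apply (hnq e he).2
        have h3 : z = (e⁻¹ * b * e) * (e⁻¹ * q) := by
          have : z = e⁻¹ * (e * z) := by group
          rw [this, h2]
          group
        rw [h3] at h1
        exact (hI1 _ (hN e he b hb).2 _).1 h1
      · apply (hnq e he).1
        have h3 : e * z = (e * a * e⁻¹) * (e * q) := by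
          rw [h1]
          group
        rw [h3] at h2
        exact (hI1 _ (hN e he a ha).1 _).1 h2
      · apply hE e he
        have h3 : e = b * a⁻¹ := by
          rw [h1] at h2
          have h4 : e * a = b := by
            rw [← mul_assoc] at h2
            exact mul_right_cancel h2
          rw [← h4]
          group
        rw [h3]
        exact A.mul_mem hb (A.inv_mem ha)
  have h5 : I' ⊆ I := hI.le_of_ge hI' Set.subset_union_left
  apply hq
  apply h5
  exact Or.inr ⟨1, A.one_mem, by rw [one_mul]⟩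

variable (A : ℕ → Subgroup G) (E : ℕ → Finset G)

/-- The closed invariant set of configurations. -/
def Zm : Set (Cfg G) := {y | ∀ i, (∀ a ∈ A i, ∀ q, y i (a * q) = y i q) ∧
  (∀ e ∈ E i, ∀ q, ¬ (y i q = true ∧ y i (e * q) = true)) ∧
  ∀ q, y i q = true ∨ ∃ e ∈ E i, y i (e * q) = true ∨ y i (e⁻¹ * q) = true}

theorem isClosed_Zm : IsClosed (Zm A E) := by
  have h1 : Zm A E = ⋂ i, ((⋂ a ∈ A i, ⋂ q, {y : Cfg G | y i (a * q) = y i q}) ∩
      ((⋂ e ∈ E i, ⋂ q, {y : Cfg G | ¬ (y i q = true ∧ y i (e * q) = true)}) ∩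
      ⋂ q, ({y : Cfg G | y i q = true} ∪
        ⋃ e ∈ E i, {y : Cfg G | y i (e * q) = true ∨ y i (e⁻¹ * q) = true}))) := by
    ext y
    simp only [Zm, Set.mem_ofPred_eq, Set.mem_iInter, Set.mem_inter_iff, Set.mem_union,
      Set.mem_iUnion, exists_prop]
  rw [h1]
  refine isClosed_iInter fun i => IsClosed.inter ?_ (IsClosed.inter ?_ ?_)
  · refine isClosed_biInter fun a _ => isClosed_iInter fun q => ?_
    exact isClosed_eq (continuous_coord i _) (continuous_coord i _)
  · refine isClosed_biInter fun e _ => isClosed_iInter fun q => ?_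
    have hc : Continuous fun y : Cfg G => (y i q, y i (e * q)) :=
      (continuous_coord i _).prodMk (continuous_coord i _)
    exact (isClosed_discrete {p : Bool × Bool | ¬ (p.1 = true ∧ p.2 = true)}).preimage hc
  · refine isClosed_iInter fun q => IsClosed.union ?_ ?_
    · exact (isClosed_discrete {true}).preimage (continuous_coord i q)
    · refine Set.Finite.isClosed_biUnion (Finset.finite_toSet (E i)) fun e _ => ?_
      have hc : Continuous fun y : Cfg G => (y i (e * q), y i (e⁻¹ * q)) :=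
        (continuous_coord i _).prodMk (continuous_coord i _)
      exact (isClosed_discrete {p : Bool × Bool | p.1 = true ∨ p.2 = true}).preimage hc

theorem inv_Zm (g : G) (y : Cfg G) (hy : y ∈ Zm A E) : g • y ∈ Zm A E := by
  intro i
  obtain ⟨h1, h2, h3⟩ := hy i
  refine ⟨fun a ha q => ?_, fun e he q => ?_, fun q => ?_⟩
  · rw [Helper56_Tow.smul_apply, Helper56_Tow.smul_apply, mul_assoc]
    exact h1 a ha _
  · rw [Helper56_Tow.smul_apply, Helper56_Tow.smul_apply, mul_assoc]
    exact h2 e he _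
  · rcases h3 (q * g) with h | ⟨e, he, h⟩
    · exact Or.inl h
    · refine Or.inr ⟨e, he, ?_⟩
      rw [Helper56_Tow.smul_apply, Helper56_Tow.smul_apply, mul_assoc, mul_assoc]
      exact h

theorem nonempty_Zm (hE : ∀ i, ∀ e ∈ E i, e ∉ A i)
    (hN : ∀ i, ∀ e ∈ E i, ∀ a ∈ A i, e * a * e⁻¹ ∈ A i ∧ e⁻¹ * a * e ∈ A i) :
    (Zm A E).Nonempty := by
  classical
  choose I h1 h2 h3 using fun i => exists_indep' (A i) (E i) (hE i) (hN i)
  refine ⟨fun i q => decide (q ∈ I i), fun i => ⟨fun a ha q => ?_, fun e he q => ?_, fun q => ?_⟩⟩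
  · have := h1 i a ha q
    simp only [this]
  · have := h2 i e he q
    simpa only [decide_eq_true_eq] using this
  · have := h3 i q
    simpa only [decide_eq_true_eq] using this

/-- Sorting of a cheap family. -/
theorem sort_aux {X : Type*} [TopologicalSpace X] [MulAction G X] (F : ℕ → Set X) (γ : ℕ → G)
    (C : ℕ → Set X)
    (hC : ∀ n i, i ≤ 2 ^ n → ∀ x ∈ closure (C n), (γ i)⁻¹ • x ∈ F i) (r : ℕ) :
    ∀ T : Finset (G × ℕ), T.card = r →
      (∀ n, (T.filter (fun p => p.2 ≤ n)).card ≤ 2 ^ n) →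
      ∃ g : ℕ → G, ∀ x : X, (∀ j < r, (g j)⁻¹ • x ∉ F j) → ∀ p ∈ T, p.1⁻¹ • x ∉ closure (C p.2) := by
  classical
  induction r with
  | zero =>
    intro T hT _
    rw [Finset.card_eq_zero] at hT
    subst hT
    exact ⟨fun _ => 1, fun x _ p hp => absurd hp (Finset.notMem_empty p)⟩
  | succ r ih =>
    intro T hT hH
    have hne : T.Nonempty := by
      rw [← Finset.card_pos, hT]
      exact Nat.succ_pos r
    obtain ⟨q, hq, hmax⟩ := T.exists_max_image (fun p => p.2) hne
    have hcard : (T.erase q).card = r := by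
      rw [Finset.card_erase_of_mem hq, hT]
      rfl
    obtain ⟨g, hg⟩ := ih (T.erase q) hcard (fun n => by
      refine le_trans (Finset.card_le_card ?_) (hH n)
      exact Finset.filter_subset_filter _ (Finset.erase_subset q T))
    have hrle : r ≤ 2 ^ q.2 := by
      have h1 : T.filter (fun p => p.2 ≤ q.2) = T := by
        rw [Finset.filter_eq_self]
        exact hmax
      have h2 := hH q.2
      rw [h1, hT] at h2
      omega
    refine ⟨fun j => if j = r then q.1 * γ r else g j, fun x hx p hp => ?_⟩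
    by_cases hpq : p = q
    · subst hpq
      intro hmem
      apply hx r (by omega)
      have h1 : (if r = r then p.1 * γ r else g r) = p.1 * γ r := if_pos rfl
      show (if r = r then p.1 * γ r else g r)⁻¹ • x ∈ F r
      rw [h1, mul_inv_rev, mul_smul]
      exact hC p.2 r hrle _ hmem
    · refine hg x (fun j hj => ?_) p (Finset.mem_erase.2 ⟨hpq, hp⟩)
      have h1 : (if j = r then q.1 * γ r else g j) = g j := if_neg (by omega)
      have h2 : (if j = r then q.1 * γ r else g j)⁻¹ • x ∉ F j := hx j (by omega)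
      rw [h1] at h2
      exact h2

/-- **Robust sequences of subgroups.** -/
theorem good_of_robust (hE : ∀ i, ∀ e ∈ E i, e ∉ A i)
    (hN : ∀ i, ∀ e ∈ E i, ∀ a ∈ A i, e * a * e⁻¹ ∈ A i ∧ e⁻¹ * a * e ∈ A i)
    (hmain : ∀ (k : ℕ) (g : ℕ → G), ∃ a ∈ A k, ∃ e ∈ E k, ∀ j < k,
      (g j)⁻¹ * (g k * (a * e) * (g k)⁻¹) * g j ∈ A j) : Good G := by
  classical
  obtain ⟨M', h1, hMc, hMn, h4, h5⟩ := exists_minimal_sub (G := G) (Zm A E) (isClosed_Zm A E)
    (nonempty_Zm A E hE hN) (inv_Zm A E)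
  let M : SubMulAction G (Cfg G) := ⟨M', fun g y hy => h4 g y hy⟩
  have hMZ : ∀ x : M, (x : Cfg G) ∈ Zm A E := fun x => h1 x.2
  have := continuousConstSMul_sub M
  have := isMinimal_sub M hMc h5
  have : CompactSpace M := isCompact_iff_compactSpace.1 hMc.isCompact
  have : Nonempty M := by
    obtain ⟨y, hy⟩ := hMn
    exact ⟨⟨y, hy⟩⟩
  let F : ℕ → Set M := fun i => {x | (x : Cfg G) i 1 = true}
  have hcont : ∀ i, Continuous fun x : M => (x : Cfg G) i 1 :=
    fun i => (continuous_coord i 1).comp continuous_subtype_val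
  have hFo : ∀ i, IsOpen (F i) := fun i => (isOpen_discrete {true}).preimage (hcont i)
  have hFc : ∀ i, IsClosed (F i) := fun i => (isClosed_discrete {true}).preimage (hcont i)
  have hmv : ∀ (i : ℕ) (g : G) (x : M), (x : Cfg G) i g = true → (F i).Nonempty := by
    intro i g x hx
    refine ⟨g • x, ?_⟩
    change (x : Cfg G) i (1 * g) = true
    rw [one_mul]
    exact hx
  have hFn : ∀ i, (F i).Nonempty := by
    intro i
    obtain ⟨x⟩ := ‹Nonempty M›
    rcases (hMZ x i).2.2 1 with hx | ⟨e, -, hx | hx⟩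
    · exact hmv i _ x hx
    · exact hmv i _ x hx
    · exact hmv i _ x hx
  have hkill : ∀ (r : ℕ) (g : ℕ → G), ∃ x : M, ∀ j < r, (g j)⁻¹ • x ∉ F j := by
    intro r g
    have hm : ∀ (j : ℕ) (x : M), (g j)⁻¹ • x ∈ F j ↔ (x : Cfg G) j (g j)⁻¹ = true := by
      intro j x
      change (x : Cfg G) j (1 * (g j)⁻¹) = true ↔ _
      rw [one_mul]
    simp only [hm]
    induction r with
    | zero =>
      obtain ⟨x⟩ := ‹Nonempty M›
      exact ⟨x, fun j hj => absurd hj (Nat.not_lt_zero j)⟩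
    | succ r ih =>
      obtain ⟨x, hx⟩ := ih
      by_cases hr : (x : Cfg G) r (g r)⁻¹ = true
      · obtain ⟨a, ha, e, he, hb⟩ := hmain r g
        refine ⟨(g r * (a * e) * (g r)⁻¹) • x, fun j hj => ?_⟩
        change ¬ (x : Cfg G) j ((g j)⁻¹ * (g r * (a * e) * (g r)⁻¹)) = true
        rcases Nat.lt_or_ge j r with h | h
        · have h6 : (g j)⁻¹ * (g r * (a * e) * (g r)⁻¹) =
              ((g j)⁻¹ * (g r * (a * e) * (g r)⁻¹) * g j) * (g j)⁻¹ := by group
          rw [h6, (hMZ x j).1 _ (hb j h)]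
          exact hx j h
        · obtain rfl : j = r := by omega
          have h6 : (g j)⁻¹ * (g j * (a * e) * (g j)⁻¹) = a * (e * (g j)⁻¹) := by group
          rw [h6, (hMZ x j).1 _ ha]
          intro h7
          exact (hMZ x j).2.1 e he _ ⟨hr, h7⟩
      · refine ⟨x, fun j hj => ?_⟩
        rcases Nat.lt_or_ge j r with h | h
        · exact hx j h
        · obtain rfl : j = r := by omega
          exact hr
  refine good_of_killing (G := G) (X := M) F F hFc hFo hFn (fun _ => subset_rfl)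
    fun γ C hC T hH => ?_
  obtain ⟨g, hg⟩ := sort_aux F γ C hC T.card T rfl hH
  obtain ⟨x, hx⟩ := hkill T.card g
  exact ⟨x, hg x hx⟩

end master

end Pool.Agent.Helper17_Syn
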