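import Pool.Agent.Helper17_Syn.Germ

/-!
# Groups with disjointly supported elements

A group acting on a topological space that has arbitrarily many elements with pairwise disjoint
supports, each with a finite orbit near which it is not trivial, has a left-invariant syndetic
submeasure.
-/

set_option autoImplicit false

open scoped BigOperators Pointwise Topology

namespace Pool.Agent.Helper17_Syn

open Pool.Agent.Helper34_Synd Pool.Agent.Helper56_Tow

section supports

variable {G X : Type*} [Group G] [TopologicalSpace X] [MulAction G X] [ContinuousConstSMul G X]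

/-- The elements that are trivial near every point of the finite set `P`. -/
def trvS (G : Type*) {X : Type*} [Group G] [TopologicalSpace X] [MulAction G X] (P : Finset X) :
    Subgroup G := ⨅ p ∈ P, trv G p

omit [ContinuousConstSMul G X] in
theorem mem_trvS {P : Finset X} {g : G} :
    g ∈ trvS G P ↔ ∀ p ∈ P, ∀ᶠ x in 𝓝 p, g • x = x := by
  simp only [trvS, Subgroup.mem_iInf, mem_trv]

/-- The support: the closure of the set of points that are moved. -/
def supp (g : G) : Set X := closure {x | g • x ≠ x}

omit [ContinuousConstSMul G X] in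
theorem not_mem_supp {g : G} {p : X} : p ∉ (supp g : Set X) ↔ ∀ᶠ x in 𝓝 p, g • x = x := by
  rw [supp, mem_closure_iff_frequently, Filter.not_frequently]
  simp only [Set.mem_ofPred_eq, not_not]

/-- The support is invariant under the cyclic group. -/
theorem supp_orbit {e : G} {p q : X} (hp : p ∈ (supp e : Set X))
    (hq : q ∈ MulAction.orbit (Subgroup.zpowers e) p) : q ∈ (supp e : Set X) := by
  obtain ⟨⟨z, hz⟩, rfl⟩ := hq
  by_contra hcon
  rw [not_mem_supp] at hcon
  apply not_mem_supp.2 ?_ hp
  have h1 : ∀ᶠ x in 𝓝 (z • p), e • x = x := hcon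
  have hcomm : e * z = z * e := by
    obtain ⟨n, rfl⟩ := Subgroup.mem_zpowers_iff.1 hz
    exact (Commute.refl e).zpow_right n
  filter_upwards [eventually_smul z h1] with x hx
  rw [← mul_smul, hcomm, mul_smul] at hx
  exact smul_left_cancel z hx

/-- **Disjoint supports.** -/
theorem good_of_supports
    (h : ∀ m : ℕ, ∃ e : Fin m → G, (∀ i j, i ≠ j → Disjoint (supp (e i) : Set X) (supp (e j))) ∧
      ∀ i, ∃ p : X, (MulAction.orbit (Subgroup.zpowers (e i)) p).Finite ∧
        ¬ ∀ᶠ x in 𝓝 p, e i • x = x) : Good G := by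
  classical
  choose e hdis hpt using h
  choose p hfin hmov using hpt
  let C : ∀ m : ℕ, Fin m → Finset X := fun m i => (hfin m i).toFinset
  have hC : ∀ m i x, x ∈ C m i ↔ x ∈ MulAction.orbit (Subgroup.zpowers (e m i)) (p m i) := by
    intro m i x
    exact Set.Finite.mem_toFinset _
  let P : ℕ → Finset X := fun m => Finset.univ.biUnion (C m)
  have hP : ∀ m x, x ∈ P m ↔ ∃ i, x ∈ C m i := by
    intro m x
    simp [P]
  have hCs : ∀ m i x, x ∈ C m i → x ∈ (supp (e m i) : Set X) := by
    intro m i x hx
    refine supp_orbit (p := p m i) ?_ ((hC m i x).1 hx)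
    by_contra hcon
    exact hmov m i (not_mem_supp.1 hcon)
  -- the elements `e m i` permute the points of `P m`
  have hperm : ∀ m i x, x ∈ P m → e m i • x ∈ P m ∧ (e m i)⁻¹ • x ∈ P m := by
    intro m i x hx
    obtain ⟨j, hj⟩ := (hP m x).1 hx
    by_cases hij : i = j
    · subst hij
      obtain ⟨z, hz⟩ := (hC m i x).1 hj
      constructor
      · refine (hP m _).2 ⟨i, (hC m i _).2 ⟨⟨e m i, Subgroup.mem_zpowers _⟩ * z, ?_⟩⟩
        show (⟨e m i, Subgroup.mem_zpowers _⟩ * z : Subgroup.zpowers (e m i)) • p m i = _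
        rw [mul_smul]
        have hz' : z • p m i = x := hz
        rw [hz']
        rfl
      · refine (hP m _).2 ⟨i, (hC m i _).2 ⟨⟨e m i, Subgroup.mem_zpowers _⟩⁻¹ * z, ?_⟩⟩
        show ((⟨e m i, Subgroup.mem_zpowers _⟩ : Subgroup.zpowers (e m i))⁻¹ * z) • p m i = _
        rw [mul_smul]
        have hz' : z • p m i = x := hz
        rw [hz']
        rfl
    · have h1 : x ∉ (supp (e m i) : Set X) := by
        intro h2
        exact Set.disjoint_left.1 (hdis m i j hij) h2 (hCs m j x hj)
      have h2 : e m i • x = x := (not_mem_supp.1 h1).self_of_nhds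
      have h3 : (e m i)⁻¹ • x = x := by rw [inv_smul_eq_iff, h2]
      rw [h2, h3]
      exact ⟨hx, hx⟩
  -- the sizes
  let N : ℕ → ℕ := fun k => Nat.rec 0 (fun _ n => n + (P (n + 1)).card) k
  have hN0 : N 0 = 0 := rfl
  have hNs : ∀ k, N (k + 1) = N k + (P (N k + 1)).card := fun k => rfl
  have hNsum : ∀ k, ∑ j ∈ Finset.range k, (P (N j + 1)).card = N k := by
    intro k
    induction k with
    | zero => rw [Finset.sum_range_zero, hN0]
    | succ k ih => rw [Finset.sum_range_succ, ih, hNs]
  refine good_of_robust (fun k => trvS G (P (N k + 1)))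
    (fun k => Finset.univ.image (e (N k + 1))) ?_ ?_ ?_
  · intro k x hx hA
    obtain ⟨i, -, rfl⟩ := Finset.mem_image.1 hx
    apply hmov _ i
    apply mem_trvS.1 hA
    exact (hP _ _).2 ⟨i, (hC _ _ _).2 (MulAction.mem_orbit_self _)⟩
  · intro k x hx a ha
    obtain ⟨i, -, rfl⟩ := Finset.mem_image.1 hx
    rw [mem_trvS] at ha
    constructor
    · rw [mem_trvS]
      intro q hq
      have h1 := ha _ (hperm _ i q hq).2
      filter_upwards [eventually_smul (e (N k + 1) i)⁻¹ h1] with y hy
      rw [mul_smul, mul_smul, hy, smul_inv_smul]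
    · rw [mem_trvS]
      intro q hq
      have h1 := ha _ (hperm _ i q hq).1
      filter_upwards [eventually_smul (e (N k + 1) i) h1] with y hy
      rw [mul_smul, mul_smul, hy, inv_smul_smul]
  · intro k g
    let Q : Finset X := (Finset.range k).biUnion fun j =>
      (P (N j + 1)).image fun x => ((g k)⁻¹ * g j) • x
    have hQc : Q.card ≤ N k := by
      refine Finset.card_biUnion_le.trans ?_
      rw [← hNsum k]
      exact Finset.sum_le_sum fun j _ => Finset.card_image_le
    have hgood : ∃ i : Fin (N k + 1), ∀ q ∈ Q, q ∉ (supp (e (N k + 1) i) : Set X) := by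
      by_contra hcon
      push Not at hcon
      choose f hfQ hfs using hcon
      have h1 : Q.card < (Finset.univ : Finset (Fin (N k + 1))).card := by
        rw [Finset.card_univ, Fintype.card_fin]
        omega
      obtain ⟨i, -, j, -, hij, heq⟩ :=
        Finset.exists_ne_map_eq_of_card_lt_of_maps_to h1 (fun i _ => hfQ i)
      have h2 := hfs j
      rw [← heq] at h2
      exact Set.disjoint_left.1 (hdis _ i j hij) (hfs i) h2
    obtain ⟨i, hi⟩ := hgood
    refine ⟨1, Subgroup.one_mem _, e (N k + 1) i, Finset.mem_image_of_mem _ (Finset.mem_univ i),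
      fun j hj => ?_⟩
    rw [one_mul, mem_trvS]
    intro q hq
    have h1 : ((g k)⁻¹ * g j) • q ∈ Q :=
      Finset.mem_biUnion.2 ⟨j, Finset.mem_range.2 hj, Finset.mem_image_of_mem _ hq⟩
    have h2 := not_mem_supp.1 (hi _ h1)
    filter_upwards [eventually_smul ((g k)⁻¹ * g j) h2] with y hy
    have e1 : (g j)⁻¹ * (g k * e (N k + 1) i * (g k)⁻¹) * g j =
        ((g k)⁻¹ * g j)⁻¹ * (e (N k + 1) i * ((g k)⁻¹ * g j)) := by group
    rw [e1, mul_smul, mul_smul, hy, inv_smul_smul]

/-- **Disjoint supports, elements of finite order.** -/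
theorem good_of_supports_torsion
    (h : ∀ m : ℕ, ∃ e : Fin m → G, (∀ i j, i ≠ j → Disjoint (supp (e i) : Set X) (supp (e j))) ∧
      ∀ i, IsOfFinOrder (e i) ∧ ∃ x : X, e i • x ≠ x) : Good G := by
  refine good_of_supports (X := X) fun m => ?_
  obtain ⟨e, h1, h2⟩ := h m
  refine ⟨e, h1, fun i => ?_⟩
  obtain ⟨hf, x, hx⟩ := h2 i
  refine ⟨x, ?_, fun hcon => hx hcon.self_of_nhds⟩
  have : Finite (Subgroup.zpowers (e i)) := (finite_zpowers.2 hf).to_subtype
  exact Set.finite_range _

/-- **Disjoint supports, connected spaces.** -/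
theorem good_of_supports_connected [T2Space X] [PreconnectedSpace X]
    (h : ∀ m : ℕ, ∃ e : Fin m → G, (∀ i j, i ≠ j → Disjoint (supp (e i) : Set X) (supp (e j))) ∧
      ∀ i, ∃ x : X, e i • x ≠ x) : Good G := by
  refine good_of_supports (X := X) fun m => ?_
  obtain ⟨e, h1, h2⟩ := h (m + 1)
  refine ⟨fun i => e i.castSucc, fun i j hij => h1 _ _ (fun hc => hij (Fin.castSucc_injective m hc)),
    fun i => ?_⟩
  set u : G := e i.castSucc with hu
  obtain ⟨x, hx⟩ := h2 i.castSucc
  obtain ⟨y, hy⟩ := h2 (Fin.last m)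
  let V : Set X := {z | ∀ᶠ w in 𝓝 z, u • w = w}
  have hVo : IsOpen V := by
    rw [isOpen_iff_mem_nhds]
    intro z hz
    exact eventually_eventually_nhds.2 hz
  have hyV : y ∈ V := by
    have h3 : y ∈ (supp (e (Fin.last m)) : Set X) := subset_closure hy
    have h4 : y ∉ (supp u : Set X) := by
      intro h5
      exact Set.disjoint_left.1 (h1 i.castSucc (Fin.last m) (Fin.castSucc_lt_last i).ne) h5 h3
    exact not_mem_supp.1 h4
  have hxV : x ∉ V := by
    intro h3
    have h4 : ∀ᶠ w in 𝓝 x, u • w = w := h3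
    exact hx h4.self_of_nhds
  have hFc : IsClosed {z : X | u • z = z} := isClosed_eq (continuous_const_smul u) continuous_id
  have hne : ∃ q : X, u • q = q ∧ q ∉ V := by
    by_contra hcon
    push Not at hcon
    have hV : V = {z : X | u • z = z} := by
      apply Set.Subset.antisymm
      · intro z hz
        have h4 : ∀ᶠ w in 𝓝 z, u • w = w := hz
        exact h4.self_of_nhds
      · intro z hz
        exact hcon z hz
    have hcl : IsClopen V := ⟨by rw [hV]; exact hFc, hVo⟩
    rcases isClopen_iff.1 hcl with h3 | h3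
    · rw [h3] at hyV
      exact hyV
    · rw [h3] at hxV
      exact hxV (Set.mem_univ x)
  obtain ⟨q, hq1, hq2⟩ := hne
  refine ⟨q, ?_, hq2⟩
  have h3 : MulAction.orbit (Subgroup.zpowers u) q = {q} := by
    apply Set.Subset.antisymm
    · rintro _ ⟨⟨z, hz⟩, rfl⟩
      have h4 : Subgroup.zpowers u ≤ MulAction.stabilizer G q := by
        rw [Subgroup.zpowers_le]
        exact hq1
      exact h4 hz
    · intro z hz
      rw [Set.mem_singleton_iff.1 hz]
      exact MulAction.mem_orbit_self _
  have h4 : (MulAction.orbit (Subgroup.zpowers u) q).Finite := by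
    rw [h3]
    exact Set.finite_singleton q
  exact h4

end supports

end Pool.Agent.Helper17_Syn
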